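import Pool.Agent.LRY.Stmts

/-!
# LRY, row SFQ: the fields of the family are in `SizeFlds`
-/

set_option autoImplicit false

open Polynomial NumberField
open Pool.Agent.LRG Pool.Agent.LRN
open Pool.Agent.LRG.E (Ro Fa fac st rep mu ex)

namespace Pool.Agent.LRY.H47

open Pool.Agent.LRY

/-- the omitted factor -/
theorem exists_k0 (r₁ r₂ : ℕ) (h3 : 3 ≤ r₁ + r₂) :
    ∃ k₀ : Fa r₁ r₂, ∀ k : Fa r₁ r₂, k ≠ k₀ → mu k ≤ dl r₂ := by
  rcases Nat.lt_or_ge 1 r₂ with h | h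
  · refine ⟨Sum.inr ⟨0, by omega⟩, fun k _ => ?_⟩
    have hd : dl r₂ = 2 := if_neg (by omega)
    rw [hd]
    rcases k with i | j
    · exact Nat.le_succ 1
    · exact le_rfl
  · have hd : dl r₂ = 1 := if_pos h
    rcases Nat.eq_zero_or_pos r₂ with h0 | h0
    · subst h0
      refine ⟨Sum.inl ⟨0, by omega⟩, fun k _ => ?_⟩
      rw [hd]
      rcases k with i | j
      · exact le_rfl
      · exact j.elim0
    · refine ⟨Sum.inr ⟨0, h0⟩, fun k hk => ?_⟩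
      rw [hd]
      rcases k with i | j
      · exact le_rfl
      · exfalso
        refine hk ?_
        congr 1
        apply Fin.ext
        have := j.2
        show j.1 = 0
        omega

/-- **SFQ** -/
theorem sfq : SfqStmt := by
  classical
  intro hPl hUn hSz hIn hNc hSp r₁ r₂ h3
  obtain ⟨N₀, hN₀⟩ := hNc hSp hPl r₁ r₂ h3
  refine ⟨max N₀ 2, fun N hN a c x K _ θ e hF => ?_⟩
  have hN2 : 2 ≤ N := (le_max_right _ _).trans hN
  obtain ⟨hr, hc, hrank⟩ := hPl r₁ r₂ N a c x K θ e hF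
  obtain ⟨u, -, hprod, hu⟩ := hUn r₁ r₂ N a c x K θ e hF
  obtain ⟨-, -, hsz⟩ := hSz r₁ r₂ N a c x hF.rts hN2
  refine ⟨inferInstance, hr, hc, hN₀ N ((le_max_left _ _).trans hN) a c x K θ e hF, ?_⟩
  obtain ⟨k₀, hk₀⟩ := exists_k0 r₁ r₂ h3
  have hcard : Fintype.card {k : Fa r₁ r₂ // k ≠ k₀} = Units.rank K := by
    rw [hrank, Fintype.card_subtype_compl, Fintype.card_subtype_eq, Fintype.card_sum,
      Fintype.card_fin, Fintype.card_fin]
  obtain ⟨φ⟩ : Nonempty (Fin (Units.rank K) ≃ {k : Fa r₁ r₂ // k ≠ k₀}) :=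
    ⟨(Fintype.equivFinOfCardEq hcard).symm⟩
  refine ⟨fun i => u (φ i), ?_, ?_⟩
  · intro d hd
    obtain ⟨m, hm⟩ : ∃ m : Fa r₁ r₂ → ℤ, m = fun k => if h : k ≠ k₀ then d (φ.symm ⟨k, h⟩)
      else 0 := ⟨_, rfl⟩
    have hmk : m k₀ = 0 := by
      rw [hm]
      exact dif_neg fun h => h rfl
    have hmi : ∀ i, m (φ i) = d i := by
      intro i
      rw [hm]
      have h1 : ((φ i : {k : Fa r₁ r₂ // k ≠ k₀}) : Fa r₁ r₂) ≠ k₀ := (φ i).2
      show (if h : ((φ i : {k : Fa r₁ r₂ // k ≠ k₀}) : Fa r₁ r₂) ≠ k₀ then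
        d (φ.symm ⟨(φ i : Fa r₁ r₂), h⟩) else 0) = d i
      rw [dif_pos h1]
      have h2 : (⟨(φ i : Fa r₁ r₂), h1⟩ : {k : Fa r₁ r₂ // k ≠ k₀}) = φ i := rfl
      rw [h2, Equiv.symm_apply_apply]
    have hpm : ∏ k, u k ^ m k = 1 := by
      rw [Fintype.prod_eq_mul_prod_subtype_ne (fun k => u k ^ m k) k₀, hmk, zpow_zero, one_mul,
        ← hd]
      symm
      refine Fintype.prod_equiv φ _ _ fun i => ?_
      rw [hmi]
    have h0 := hIn hSz r₁ r₂ N a c x K e u hF.rts hN2 hprod hu k₀ m hmk hpm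
    funext i
    rw [← hmi i, h0]
    rfl
  · intro i σ
    obtain ⟨o, ho⟩ := e.surjective σ
    rw [← ho]
    show ‖e o ((u (φ i) : 𝓞 K) : K)‖ ≤ _
    rw [hu]
    refine (hsz o (φ i)).trans ?_
    refine pow_le_pow_right₀ ?_ (hk₀ _ (φ i).2)
    have h1 : (6 : ℝ) ≤ bq r₁ r₂ := by
      unfold bq
      have e1 : (0 : ℝ) ≤ (r₁ : ℝ) + r₂ := by positivity
      linarith
    have h2 : (2 : ℝ) ≤ (N : ℝ) := by exact_mod_cast hN2
    nlinarith

end Pool.Agent.LRY.H47
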